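import Pool.Agent.V11207.Loc

/-!
# Highly twisted plats need not have the minimal number of crossings

If `a 1 1` and `a 2 1` have the same sign, the plat is not alternating at its upper left corner, and
the rational tangle there can be redrawn with one crossing less, whatever the other twist numbers.
-/

set_option autoImplicit false

namespace Pool.Agent.Results.MP_b23894_gt.PlatNotMinimal

open Pool.Agent.Helper907.AA
open Pool.Agent.Helper907.AA.Piece hiding width
open Pool.Agent.V11207

/-- The diagram of the braid word `σ_{i+1} ^ (-a)`: `|a|` crossings of the strands at the positions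
`i` and `i + 1` (positions are counted from `0`), all of the same kind. -/
def twist (i : ℕ) (a : ℤ) : Word := List.replicate a.natAbs (if 0 < a then neg i else pos i)

/-- The diagram of the `i`-th factor `b_i` of a braid word in standard form of width `m`: for odd
`i` the twist regions are between the strands `2, 3`, the strands `4, 5`, and so on, for even `i`
between the strands `1, 2`, the strands `3, 4`, and so on (strands counted from `1`). -/
def row (m : ℕ) (a : ℕ → ℕ → ℤ) (i : ℕ) : Word :=
  if i % 2 = 1 then (List.range (m - 1)).flatMap fun j => twist (2 * j + 1) (a i (j + 1))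
  else (List.range m).flatMap fun j => twist (2 * j) (a i (j + 1))

/-- The diagram of the braid word `b_1 b_2 ... b_n` in standard form of width `m` and height `n`. -/
def braid (m n : ℕ) (a : ℕ → ℕ → ℤ) : Word := (List.range n).flatMap fun i => row m a (i + 1)

/-- The arcs joining the top endpoints `1, 2`, then `3, 4`, and so on. -/
def caps (m : ℕ) : Word := (List.range m).map fun k => birth (2 * k)

/-- The arcs joining the bottom endpoints `1, 2`, and `3, 4`, and so on. -/
def cups (m : ℕ) : Word := (List.range m).reverse.map fun k => death (2 * k)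

/-- The plat closure. -/
def plat (m n : ℕ) (a : ℕ → ℕ → ℤ) : Word := caps m ++ braid m n a ++ cups m

/-- The number of twist regions in the `i`-th row. -/
def regions (m i : ℕ) : ℕ := if i % 2 = 1 then m - 1 else m

/-- The standard form is `c`-highly twisted. -/
def HighlyTwisted (c m n : ℕ) (a : ℕ → ℕ → ℤ) : Prop :=
  ∀ i ∈ Finset.Icc 1 n, ∀ j ∈ Finset.Icc 1 (regions m i), (c : ℤ) ≤ |a i j|

/-- The sum of all `|a i j|`. -/
def total (m n : ℕ) (a : ℕ → ℕ → ℤ) : ℕ :=
  ∑ i ∈ Finset.Icc 1 n, ∑ j ∈ Finset.Icc 1 (regions m i), (a i j).natAbs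

/-! ### Auxiliary facts -/

/-- A crossing at a position between `lo` and `hi - 2`. -/
def Cr (lo hi : ℕ) (p : Piece) : Prop := ∃ (s : Bool) (i : ℕ), p = cr s i ∧ lo ≤ i ∧ i + 2 ≤ hi

theorem width_of_cr {n : ℕ} (w : Word) (h : ∀ p ∈ w, Cr 0 n p) : width w n = some n := by
  induction w with
  | nil => rfl
  | cons p w ih =>
    obtain ⟨s, i, rfl, -, hi⟩ := h p (by simp)
    simp only [width, cr_width s hi, Option.bind_some]
    exact ih fun q hq => h q (by simp [hq])

theorem twist_eq (i : ℕ) (a : ℤ) :
    twist i a = List.replicate a.natAbs (cr (decide (¬ 0 < a)) i) := by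
  by_cases h : 0 < a <;> simp [twist, cr, h]

theorem cr_twist {lo hi i : ℕ} {a : ℤ} (h1 : lo ≤ i) (h2 : i + 2 ≤ hi) :
    ∀ p ∈ twist i a, Cr lo hi p := by
  intro p hp
  rw [twist_eq] at hp
  exact ⟨_, i, (List.mem_replicate.1 hp).2, h1, h2⟩

theorem crossings_append (u v : Word) : crossings (u ++ v) = crossings u + crossings v := by
  simp [crossings]

theorem crossings_replicate (s : Bool) (i k : ℕ) :
    crossings (List.replicate k (cr s i)) = k := by
  cases s <;> simp [crossings, cr, Piece.isCrossing, List.countP_replicate]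

theorem crossings_twist (i : ℕ) (a : ℤ) : crossings (twist i a) = a.natAbs := by
  rw [twist_eq, crossings_replicate]

theorem crossings_flatMap (l : List ℕ) (f : ℕ → Word) :
    crossings (l.flatMap f) = (l.map fun i => crossings (f i)).sum := by
  induction l with
  | nil => rfl
  | cons x l ih => simp [crossings_append, ih]

theorem sum_range_map (m : ℕ) (f : ℕ → ℕ) :
    ((List.range m).map fun j => f (j + 1)).sum = ∑ j ∈ Finset.Icc 1 m, f j := by
  induction m with
  | zero => simp
  | succ m ih =>
    rw [List.range_succ, List.map_append, List.sum_append, ih]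
    simp [Finset.sum_Icc_succ_top]

theorem crossings_row (m : ℕ) (a : ℕ → ℕ → ℤ) (i : ℕ) :
    crossings (row m a i) = ∑ j ∈ Finset.Icc 1 (regions m i), (a i j).natAbs := by
  unfold row regions
  split
  · rw [crossings_flatMap]
    simp only [crossings_twist]
    exact sum_range_map (m - 1) fun j => (a i j).natAbs
  · rw [crossings_flatMap]
    simp only [crossings_twist]
    exact sum_range_map m fun j => (a i j).natAbs

theorem crossings_caps (m : ℕ) : crossings (caps m) = 0 := by
  simp [crossings, caps, List.countP_eq_zero, Piece.isCrossing]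

theorem crossings_cups (m : ℕ) : crossings (cups m) = 0 := by
  simp [crossings, cups, List.countP_eq_zero, Piece.isCrossing]

theorem crossings_plat (m n : ℕ) (a : ℕ → ℕ → ℤ) : crossings (plat m n a) = total m n a := by
  rw [plat, crossings_append, crossings_append, crossings_caps, crossings_cups, braid,
    crossings_flatMap]
  simp only [crossings_row, zero_add, add_zero]
  exact sum_range_map n fun i => ∑ j ∈ Finset.Icc 1 (regions m i), (a i j).natAbs

theorem width_caps (m : ℕ) : width (caps m) 0 = some (2 * m) := by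
  induction m with
  | zero => rfl
  | succ m ih =>
    rw [caps, List.range_succ, List.map_append, width_append]
    rw [caps] at ih
    rw [ih]
    simp [width, Piece.width]
    ring

theorem width_cups (m : ℕ) : width (cups m) (2 * m) = some 0 := by
  induction m with
  | zero => rfl
  | succ m ih =>
    rw [cups] at ih ⊢
    rw [List.range_succ, List.reverse_append, List.map_append, width_append]
    have : width (List.map (fun k => death (2 * k)) [m].reverse) (2 * (m + 1)) = some (2 * m) := by
      simp [width, Piece.width, show 2 * m + 2 ≤ 2 * (m + 1) by omega,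
        show 2 * (m + 1) - 2 = 2 * m by omega]
    rw [this]
    exact ih

theorem cr_row (m : ℕ) (a : ℕ → ℕ → ℤ) (i : ℕ) : ∀ p ∈ row m a i, Cr 0 (2 * m) p := by
  intro p hp
  unfold row at hp
  split at hp
  · obtain ⟨j, hj, hp⟩ := List.mem_flatMap.1 hp
    rw [List.mem_range] at hj
    exact cr_twist (by omega) (by omega) p hp
  · obtain ⟨j, hj, hp⟩ := List.mem_flatMap.1 hp
    rw [List.mem_range] at hj
    exact cr_twist (by omega) (by omega) p hp

theorem cr_braid (m n : ℕ) (a : ℕ → ℕ → ℤ) : ∀ p ∈ braid m n a, Cr 0 (2 * m) p := by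
  intro p hp
  obtain ⟨i, -, hp⟩ := List.mem_flatMap.1 hp
  exact cr_row m a _ p hp

theorem closed_plat (m n : ℕ) (a : ℕ → ℕ → ℤ) : Closed (plat m n a) := by
  unfold Closed plat
  rw [width_append, width_append, width_caps]
  simp only [Option.bind_some]
  rw [width_of_cr _ (cr_braid m n a)]
  exact width_cups m

theorem loc_caps (m : ℕ) : Loc 0 (2 * (m + 1)) (caps (m + 1)) (caps m ++ [birth 0]) := by
  induction m with
  | zero => exact Loc.refl (width_caps 1)
  | succ m ih =>
    have e1 : caps (m + 1 + 1) = caps (m + 1) ++ [birth (2 * (m + 1))] := by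
      simp [caps, List.range_succ]
    have e2 : caps (m + 1) = caps m ++ [birth (2 * m)] := by
      simp [caps, List.range_succ]
    have h1 : Loc 0 (2 * (m + 1 + 1)) (caps (m + 1) ++ [birth (2 * (m + 1))])
        (caps m ++ [birth 0] ++ [birth (2 * (m + 1))]) :=
      ih.append (Loc.refl (by simp [width, Piece.width]; ring))
    have hx := LocalMove.exchange (birth 0) (birth (2 * m)) (by simp [Piece.index, Piece.ins])
    have hx' : LocalMove [birth 0, birth (2 * (m + 1))] [birth (2 * m), birth 0] := by
      have : (birth (2 * m)).moved ((birth (2 * m)).index + (birth 0).outs - (birth 0).ins) =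
          birth (2 * (m + 1)) := by
        simp [Piece.moved, Piece.index, Piece.outs, Piece.ins]; ring
      rwa [this] at hx
    have h2 : Loc (2 * m) (2 * (m + 1 + 1)) [birth 0, birth (2 * (m + 1))]
        [birth (2 * m), birth 0] :=
      Loc.of_move (Or.inl hx') (by simp [width, Piece.width]; constructor <;> omega)
        (by simp [width, Piece.width]; ring)
    have h3 : Loc 0 (2 * (m + 1 + 1)) (caps m ++ [birth 0, birth (2 * (m + 1))])
        (caps m ++ [birth (2 * m), birth 0]) := (Loc.refl (width_caps m)).append h2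
    have e3 : caps m ++ [birth 0] ++ [birth (2 * (m + 1))] =
        caps m ++ [birth 0, birth (2 * (m + 1))] := by simp
    have e4 : caps m ++ [birth (2 * m), birth 0] = caps (m + 1) ++ [birth 0] := by
      rw [e2]; simp
    rw [e3] at h1
    rw [e4] at h3
    rw [e1]
    exact h1.trans h3

theorem loc_comm_one {n : ℕ} (s : Bool) (u : Word) (hu : ∀ p ∈ u, Cr 2 n p) (h : 2 ≤ n) :
    Loc n n (u ++ [cr s 0]) (cr s 0 :: u) := by
  induction u with
  | nil => exact Loc.refl (by simp [width, cr_width s (show 0 + 2 ≤ n by omega)])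
  | cons p u ih =>
    obtain ⟨t, i, rfl, h1, h2⟩ := hu p (by simp)
    have a1 := Loc.cons (cr_width t h2) (ih fun q hq => hu q (by simp [hq]))
    have hw : width u n = some n := width_of_cr u fun q hq => by
      obtain ⟨t', i', rfl, h1', h2'⟩ := hu q (by simp [hq])
      exact ⟨t', i', rfl, by omega, h2'⟩
    have a2 : Loc n n ([cr t i, cr s 0] ++ u) ([cr s 0, cr t i] ++ u) :=
      (loc_comm s t (by omega) h2).symm.append (Loc.refl hw)
    exact a1.trans a2

theorem loc_comm_many {n : ℕ} (s : Bool) (u : Word) (hu : ∀ p ∈ u, Cr 2 n p) (h : 2 ≤ n)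
    (k : ℕ) : Loc n n (u ++ List.replicate k (cr s 0)) (List.replicate k (cr s 0) ++ u) := by
  have hw : width u n = some n := width_of_cr u fun q hq => by
    obtain ⟨t', i', rfl, h1', h2'⟩ := hu q hq
    exact ⟨t', i', rfl, by omega, h2'⟩
  induction k with
  | zero => simpa using Loc.refl hw
  | succ k ih =>
    have a1 : Loc n n (u ++ [cr s 0] ++ List.replicate k (cr s 0))
        (cr s 0 :: u ++ List.replicate k (cr s 0)) :=
      (loc_comm_one s u hu h).append (Loc.refl (replicate_width s (by omega) k))
    have a2 := Loc.cons (cr_width s (show 0 + 2 ≤ n by omega)) ih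
    have e1 : u ++ List.replicate (k + 1) (cr s 0) =
        u ++ [cr s 0] ++ List.replicate k (cr s 0) := by simp [List.replicate_succ]
    rw [e1]
    exact a1.trans a2

/-- **Highly twisted plats with a non-alternating corner do not realize the crossing number.**
For all `m ≥ 2` and `n ≥ 2`, every plat of width `m` and height `n` such that `a 1 1` and `a 2 1` are
nonzero and have the same sign presents a link with a diagram with fewer crossings; the
number of twists in the other regions is arbitrary. For all `c`, `m`, `n` there are `c`-highly twisted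
standard forms of this kind. In particular the answer to the question whether all `4`-highly twisted
plats of width `m ≥ 4` and odd height `n ≥ 3` realize the crossing number is no, for each `m` and `n`,
and it remains no if `4` is replaced by any larger number. -/
theorem result :
    (∀ (m n : ℕ) (a : ℕ → ℕ → ℤ), 2 ≤ m → 2 ≤ n → 0 < a 1 1 * a 2 1 →
      Closed (plat m n a) ∧ crossings (plat m n a) = total m n a ∧
        crossingNumber (plat m n a) < total m n a) ∧
    ∀ c m n : ℕ, ∃ a : ℕ → ℕ → ℤ, HighlyTwisted c m n a ∧ 0 < a 1 1 * a 2 1 := by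
  refine ⟨fun m n a hm hn ha => ⟨closed_plat m n a, crossings_plat m n a, ?_⟩, fun c m n =>
    ⟨fun _ _ => c + 1, fun i _ j _ => ?_, by positivity⟩⟩
  swap
  · simp only
    rw [abs_of_nonneg (by positivity)]
    omega
  obtain ⟨M, rfl⟩ : ∃ M, m = M + 2 := ⟨m - 2, by omega⟩
  obtain ⟨N, rfl⟩ : ∃ N, n = N + 2 := ⟨n - 2, by omega⟩
  -- the signs
  obtain ⟨s, hs1, hs2⟩ : ∃ s : Bool, decide (¬ 0 < a 1 1) = s ∧ decide (¬ 0 < a 2 1) = s := by
    rcases pos_and_pos_or_neg_and_neg_of_mul_pos ha with ⟨h1, h2⟩ | ⟨h1, h2⟩
    · exact ⟨false, by simpa using h1, by simpa using h2⟩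
    · exact ⟨true, by simpa using h1.le, by simpa using h2.le⟩
  obtain ⟨k, hk⟩ : ∃ k, (a 1 1).natAbs = k + 1 := by
    have : a 1 1 ≠ 0 := by rintro h; simp [h] at ha
    exact ⟨(a 1 1).natAbs - 1, by omega⟩
  obtain ⟨l, hl⟩ : ∃ l, (a 2 1).natAbs = l + 1 := by
    have : a 2 1 ≠ 0 := by rintro h; simp [h] at ha
    exact ⟨(a 2 1).natAbs - 1, by omega⟩
  -- decomposition of the first two rows
  obtain ⟨R1, hR1, hR1c⟩ : ∃ R1 : Word, row (M + 2) a 1 = List.replicate (k + 1) (cr s 1) ++ R1 ∧
      ∀ p ∈ R1, Cr 2 (2 * M + 4) p := by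
    refine ⟨((List.range M).map Nat.succ).flatMap fun j => twist (2 * j + 1) (a 1 (j + 1)), ?_, ?_⟩
    · have : row (M + 2) a 1 =
          (List.range (M + 1)).flatMap fun j => twist (2 * j + 1) (a 1 (j + 1)) := by
        simp [row]
      rw [this, List.range_succ_eq_map, List.flatMap_cons, twist_eq]
      simp only [not_lt] at hs1
      simp [hk, hs1]
    · intro p hp
      obtain ⟨j, hj, hp⟩ := List.mem_flatMap.1 hp
      obtain ⟨j', hj', rfl⟩ := List.mem_map.1 hj
      rw [List.mem_range] at hj'
      exact cr_twist (by omega) (by omega) p hp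
  obtain ⟨R2, hR2, hR2c⟩ : ∃ R2 : Word, row (M + 2) a 2 = List.replicate (l + 1) (cr s 0) ++ R2 ∧
      ∀ p ∈ R2, Cr 0 (2 * M + 4) p := by
    refine ⟨((List.range (M + 1)).map Nat.succ).flatMap fun j => twist (2 * j) (a 2 (j + 1)),
      ?_, ?_⟩
    · have : row (M + 2) a 2 =
          (List.range (M + 2)).flatMap fun j => twist (2 * j) (a 2 (j + 1)) := by
        simp [row]
      rw [this, List.range_succ_eq_map, List.flatMap_cons, twist_eq]
      simp only [not_lt] at hs2
      simp [hl, hs2]
    · intro p hp
      obtain ⟨j, hj, hp⟩ := List.mem_flatMap.1 hp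
      obtain ⟨j', hj', rfl⟩ := List.mem_map.1 hj
      rw [List.mem_range] at hj'
      exact cr_twist (by omega) (by omega) p hp
  obtain ⟨T, hT, hTc⟩ : ∃ T : Word, braid (M + 2) (N + 2) a =
      row (M + 2) a 1 ++ (row (M + 2) a 2 ++ T) ∧ ∀ p ∈ T, Cr 0 (2 * M + 4) p := by
    refine ⟨(((List.range N).map Nat.succ).map Nat.succ).flatMap fun i => row (M + 2) a (i + 1),
      ?_, ?_⟩
    · rw [braid, List.range_succ_eq_map, List.range_succ_eq_map]
      simp [List.flatMap_cons]
    · intro p hp
      obtain ⟨i, -, hp⟩ := List.mem_flatMap.1 hp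
      exact cr_row (M + 2) a _ p hp
  have w1 : width R1 (2 * M + 4) = some (2 * M + 4) := width_of_cr R1 fun q hq => by
    obtain ⟨t', i', rfl, h1', h2'⟩ := hR1c q hq
    exact ⟨t', i', rfl, by omega, h2'⟩
  have w2 : width R2 (2 * M + 4) = some (2 * M + 4) := width_of_cr R2 hR2c
  have wT : width T (2 * M + 4) = some (2 * M + 4) := width_of_cr T hTc
  have wC : width (caps (M + 1)) 0 = some (2 * M + 1 + 1) := by
    rw [width_caps]; congr 1
  have wD : width (cups (M + 2)) (2 * M + 4) = some 0 := by
    have := width_cups (M + 2)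
    rwa [show 2 * (M + 2) = 2 * M + 4 by ring] at this
  -- the moves
  have e0 : plat (M + 2) (N + 2) a = caps (M + 2) ++ (List.replicate (k + 1) (cr s 1) ++
      (R1 ++ List.replicate (l + 1) (cr s 0)) ++ (R2 ++ T ++ cups (M + 2))) := by
    rw [plat, hT, hR1, hR2]
    simp
  have b1 : Loc 0 (2 * M + 4) (caps (M + 2)) (caps (M + 1) ++ [birth 0]) := by
    have := loc_caps (M + 1)
    rwa [show 2 * (M + 1 + 1) = 2 * M + 4 by ring] at this
  have b2 : Loc (2 * M + 4) (2 * M + 4) (R1 ++ List.replicate (l + 1) (cr s 0))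
      (List.replicate (l + 1) (cr s 0) ++ R1) := loc_comm_many s R1 hR1c (by omega) (l + 1)
  have rk : width (List.replicate (k + 1) (cr s 1)) (2 * M + 4) = some (2 * M + 4) :=
    replicate_width s (by omega) _
  have b3 : Loc 0 0 (caps (M + 2) ++ (List.replicate (k + 1) (cr s 1) ++
      (R1 ++ List.replicate (l + 1) (cr s 0)) ++ (R2 ++ T ++ cups (M + 2))))
      ((caps (M + 1) ++ [birth 0]) ++ (List.replicate (k + 1) (cr s 1) ++
      (List.replicate (l + 1) (cr s 0) ++ R1) ++ (R2 ++ T ++ cups (M + 2)))) :=
    b1.append (((Loc.refl rk).append b2).append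
      (((Loc.refl w2).append (Loc.refl wT)).append (Loc.refl wD)))
  have b4 : Loc 0 0 (caps (M + 1) ++ ([birth 0] ++ List.replicate (k + 1) (cr s 1) ++
      List.replicate (l + 1) (cr s 0)) ++ (R1 ++ (R2 ++ T ++ cups (M + 2))))
      (caps (M + 1) ++ ([birth 1] ++ List.replicate k (cr s 0) ++ [cr (!s) 1] ++
        List.replicate l (cr s 0)) ++ (R1 ++ (R2 ++ T ++ cups (M + 2)))) :=
    ((Loc.refl wC).append (loc_corner (n := 2 * M + 1) s k l)).append
      ((Loc.refl w1).append (((Loc.refl w2).append (Loc.refl wT)).append (Loc.refl wD)))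
  have e1 : (caps (M + 1) ++ [birth 0]) ++ (List.replicate (k + 1) (cr s 1) ++
      (List.replicate (l + 1) (cr s 0) ++ R1) ++ (R2 ++ T ++ cups (M + 2))) =
      caps (M + 1) ++ ([birth 0] ++ List.replicate (k + 1) (cr s 1) ++
      List.replicate (l + 1) (cr s 0)) ++ (R1 ++ (R2 ++ T ++ cups (M + 2))) := by simp
  rw [e1] at b3
  have b5 := b3.trans b4
  rw [← e0] at b5
  have hiso := b5.iso [] [] rfl rfl
  simp only [List.nil_append, List.append_nil] at hiso
  have hcl : Closed (caps (M + 1) ++ ([birth 1] ++ List.replicate k (cr s 0) ++ [cr (!s) 1] ++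
        List.replicate l (cr s 0)) ++ (R1 ++ (R2 ++ T ++ cups (M + 2)))) := b5.right
  have hlt : crossings (caps (M + 1) ++ ([birth 1] ++ List.replicate k (cr s 0) ++ [cr (!s) 1] ++
        List.replicate l (cr s 0)) ++ (R1 ++ (R2 ++ T ++ cups (M + 2)))) <
      crossings (plat (M + 2) (N + 2) a) := by
    rw [e0]
    simp only [crossings_append, crossings_caps, crossings_cups, crossings_replicate]
    have c1 : crossings [birth 1] = 0 := rfl
    have c2 : crossings [cr (!s) 1] = 1 := by cases s <;> rfl
    rw [c1, c2]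
    omega
  rw [← crossings_plat]
  refine lt_of_le_of_lt (Nat.sInf_le ⟨_, hcl, ?_, rfl⟩) hlt
  simpa using hiso

end Pool.Agent.Results.MP_b23894_gt.PlatNotMinimal
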